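import Mathlib
import Pool.Agent.Helper46.TTT.Spec
import Pool.Agent.Helper46.TTT.FIN
import Pool.Agent.Helper27.TTT.COL2
import Pool.Agent.Helper47.TTT.COL1

/-!
# MP_0f0afc_co: drawing positions of the `n^d` Tic-Tac-Toe

The board `[n]^d` has a proper halving 2-colouring whenever `8 k² d ≤ 2^k`, `k = ⌈n/2⌉`; so
`HJ*_{1/2}(n) > 2^k / (8 k²)`, which is `2^(n/2)` up to a polynomial factor (the bound known before
was `2^((n-2)/4) / (3 n⁴)`).

Colour `x` by `ω (∑ (2 xᵢ - (n-1))²)` (values of the coordinates `0, …, n-1`), changed when the first
coordinate which is not central is larger than the centre.  The reflection of the board exchanges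
the colours (except at the centre): the colouring is halving.  A line which passes through the
centre in its first non-central coordinates has two reflected points of different colours; on every
other line the colour is `ω (C + m (2 j + ε)²)`, `j < k`, up to a constant, and the local lemma
gives an `ω` which is not constant on any such quadratic progression with `m ≤ d`.
-/

set_option autoImplicit false

namespace Pool.Agent.Results.MP_0f0afc_co.DrawingPositions

open Finset

/-- The point with parameter `t` on the geometric line `(a, s)` of `[n]^d`: coordinate `i` is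
constant `a i` if `s i = 0`, equals `t` if `s i = 1` and is the reflection of `t` if `s i = 2`. -/
def linePoint {d n : ℕ} (a : Fin d → Fin n) (s : Fin d → Fin 3) (t : Fin n) : Fin d → Fin n :=
  fun i => if s i = 0 then a i else if s i = 1 then t else Fin.rev t

/-- No geometric line is monochromatic. -/
def Proper {d n : ℕ} (c : (Fin d → Fin n) → Bool) : Prop :=
  ∀ (a : Fin d → Fin n) (s : Fin d → Fin 3), (∃ i, s i ≠ 0) →
    ∃ t t' : Fin n, c (linePoint a s t) ≠ c (linePoint a s t')

/-- The two colour classes differ in size by at most one. -/
def Halving {d n : ℕ} (c : (Fin d → Fin n) → Bool) : Prop :=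
  |((univ.filter fun x => c x = true).card : ℤ) - ((univ.filter fun x => c x = false).card : ℤ)| ≤ 1

/-- For `n ≥ 2`, `k = n - ⌊n/2⌋ = ⌈n/2⌉` and every `d` with `8 k² d ≤ 2^k` the board `[n]^d` has a
drawing position. -/
theorem result (n d : ℕ) (hn : 2 ≤ n) (hd : 8 * (n - n / 2) ^ 2 * d ≤ 2 ^ (n - n / 2)) :
    ∃ c : (Fin d → Fin n) → Bool, Proper c ∧ Halving c :=
  Pool.Agent.Helper46.TTT.FIN.col Pool.Agent.Helper47.TTT.COL1.main
    Pool.Agent.Helper27.TTT.COL2.main n d hn hd

end Pool.Agent.Results.MP_0f0afc_co.DrawingPositions
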